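import Pool.Agent.N207.HG.Stm

/-!
# HG-LOC: local solutions of Fuchsian systems with a nonresonant residue

Project HG (helper207); this file by helper222. The growth argument follows `Y119.HY.Sol.growth`.
-/

set_option autoImplicit false

open Filter Topology Matrix

namespace Pool.Agent.N222.HG

open Pool.Agent.Y119.HY
open Pool.Agent.N207.HG (NR S_LOC)

variable {n : ℕ}

/-- `X ↦ (k + 1) X + (X N0 - N0 X)` -/
noncomputable def LL (N0 : Matrix (Fin n) (Fin n) ℂ) (k : ℕ) :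
    Module.End ℂ (Matrix (Fin n) (Fin n) ℂ) := ((k : ℂ) + 1) • LinearMap.id + DD N0

lemma LL_apply (N0 : Matrix (Fin n) (Fin n) ℂ) (k : ℕ) (X : Matrix (Fin n) (Fin n) ℂ) :
    LL N0 k X = ((k : ℂ) + 1) • X + (X * N0 - N0 * X) := by
  unfold LL
  rw [LinearMap.add_apply, LinearMap.smul_apply, LinearMap.id_apply, DD_apply]

lemma LL_inj {N0 : Matrix (Fin n) (Fin n) ℂ} (h : NR N0) (k : ℕ) :
    Function.Injective (LL N0 k) := by
  rw [injective_iff_map_eq_zero]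
  intro X hX
  rw [LL_apply] at hX
  exact h k X hX

lemma LL_surj {N0 : Matrix (Fin n) (Fin n) ℂ} (h : NR N0) (k : ℕ) :
    Function.Surjective (LL N0 k) := LinearMap.injective_iff_surjective.mp (LL_inj h k)

/-- existence -/
theorem exists_sol' {N0 : Matrix (Fin n) (Fin n) ℂ} (h : NR N0) (N1 : Matrix (Fin n) (Fin n) ℂ) :
    ∃ H, Sol N0 N1 H := by
  set H : ℕ → Matrix (Fin n) (Fin n) ℂ := fun k => Nat.rec
    (motive := fun _ => Matrix (Fin n) (Fin n) ℂ) 1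
    (fun k X => Function.surjInv (LL_surj h k) ((k : ℂ) • X + (X * N0 - N0 * X) + N1 * X)) k with hH
  refine ⟨H, rfl, fun k => ?_⟩
  have h2 : H (k + 1) = Function.surjInv (LL_surj h k)
    ((k : ℂ) • H k + (H k * N0 - N0 * H k) + N1 * H k) := rfl
  have h3 := Function.surjInv_eq (LL_surj h k) ((k : ℂ) • H k + (H k * N0 - N0 * H k) + N1 * H k)
  rw [← h2, LL_apply] at h3
  exact h3

section growth

attribute [local instance] Matrix.linftyOpNormedAddCommGroup Matrix.linftyOpNormedRing Matrix.linftyOpNormedAlgebra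

variable {N0 : Matrix (Fin n) (Fin n) ℂ}

lemma norm_nat_succ (k : ℕ) : ‖((k : ℂ) + 1)‖ = (k : ℝ) + 1 := by
  have : ((k : ℂ) + 1) = (((k : ℝ) + 1 : ℝ) : ℂ) := by push_cast; rfl
  rw [this, Complex.norm_real, Real.norm_of_nonneg (by positivity)]

lemma LL_large (k : ℕ) (hk : 4 * ‖N0‖ ≤ (k : ℝ) + 1) (X : Matrix (Fin n) (Fin n) ℂ) :
    ((k : ℝ) + 1) / 2 * ‖X‖ ≤ ‖LL N0 k X‖ := by
  have h1 : LL N0 k X = ((k : ℂ) + 1) • X + DD N0 X := by rw [LL_apply, DD_apply]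
  have h2 := DD_norm (N0 := N0) X
  have h3 : ‖((k : ℂ) + 1) • X‖ = ((k : ℝ) + 1) * ‖X‖ := by rw [norm_smul, norm_nat_succ]
  have h4 : ‖((k : ℂ) + 1) • X‖ ≤ ‖LL N0 k X‖ + ‖DD N0 X‖ := by
    calc ‖((k : ℂ) + 1) • X‖ = ‖LL N0 k X - DD N0 X‖ := by rw [h1, add_sub_cancel_right]
      _ ≤ _ := norm_sub_le _ _
  have h5 : 2 * ‖N0‖ * ‖X‖ ≤ ((k : ℝ) + 1) / 2 * ‖X‖ :=
    mul_le_mul_of_nonneg_right (by linarith) (norm_nonneg _)
  rw [h3] at h4
  linarith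

lemma LL_bound (h : NR N0) (k : ℕ) : ∃ K : ℝ, 0 ≤ K ∧ ∀ X : Matrix (Fin n) (Fin n) ℂ,
    ‖X‖ ≤ K * ‖LL N0 k X‖ := by
  obtain ⟨K, -, hK⟩ := (LL N0 k).exists_antilipschitzWith (LinearMap.ker_eq_bot.mpr (LL_inj h k))
  refine ⟨K, K.2, fun X => ?_⟩
  have h1 := hK.le_mul_dist X 0
  rwa [dist_zero_right, map_zero, dist_zero_right] at h1

lemma LL_unif (h : NR N0) : ∃ K : ℝ, 0 ≤ K ∧ ∀ (k : ℕ) (X : Matrix (Fin n) (Fin n) ℂ),
    ‖X‖ ≤ K / ((k : ℝ) + 1) * ‖LL N0 k X‖ := by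
  choose K hK0 hK using LL_bound h
  obtain ⟨k₀, hk₀⟩ := exists_nat_ge (4 * ‖N0‖)
  refine ⟨2 + ∑ k ∈ Finset.range k₀, K k * ((k : ℝ) + 1), ?_, fun k X => ?_⟩
  · have : 0 ≤ ∑ k ∈ Finset.range k₀, K k * ((k : ℝ) + 1) :=
      Finset.sum_nonneg fun k _ => mul_nonneg (hK0 k) (by positivity)
    linarith
  have hk1 : (0 : ℝ) < (k : ℝ) + 1 := by positivity
  have hL := norm_nonneg (LL N0 k X)
  have hS : 0 ≤ ∑ k ∈ Finset.range k₀, K k * ((k : ℝ) + 1) :=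
    Finset.sum_nonneg fun k _ => mul_nonneg (hK0 k) (by positivity)
  rw [div_mul_eq_mul_div, le_div_iff₀ hk1]
  by_cases hk : k < k₀
  · have h1 := Finset.single_le_sum (f := fun k : ℕ => K k * ((k : ℝ) + 1))
      (fun k _ => mul_nonneg (hK0 k) (by positivity)) (Finset.mem_range.mpr hk)
    have h2 := hK k X
    calc ‖X‖ * ((k : ℝ) + 1) ≤ (K k * ‖LL N0 k X‖) * ((k : ℝ) + 1) := by gcongr
      _ = (K k * ((k : ℝ) + 1)) * ‖LL N0 k X‖ := by ring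
      _ ≤ _ := by
        apply mul_le_mul_of_nonneg_right _ hL
        linarith
  · have h1 : 4 * ‖N0‖ ≤ (k : ℝ) + 1 := by
      have : (k₀ : ℝ) ≤ k := by exact_mod_cast not_lt.mp hk
      linarith
    have h2 := LL_large k h1 X
    have h3 : 0 ≤ (∑ k ∈ Finset.range k₀, K k * ((k : ℝ) + 1)) * ‖LL N0 k X‖ := mul_nonneg hS hL
    linarith

/-- growth -/
theorem growth' {N1 : Matrix (Fin n) (Fin n) ℂ} {H : ℕ → Matrix (Fin n) (Fin n) ℂ}
    (hH : Sol N0 N1 H) (h : NR N0) (i j : Fin n) : PG fun k => H k i j := by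
  obtain ⟨K, hK0, hK⟩ := LL_unif (N0 := N0) h
  set K1 : ℝ := K * ‖N1 - 1‖ with hK1
  have hK10 : 0 ≤ K1 := by positivity
  set q : ℕ := ⌈K1⌉₊ with hq
  have hstep : ∀ k, ‖H (k + 1)‖ ≤ (1 + K1 / ((k : ℝ) + 1)) * ‖H k‖ := by
    intro k
    have h2 : ((k : ℂ) + 1) • (H (k + 1) - H k) + DD N0 (H (k + 1) - H k) = (N1 - 1) * H k := by
      have h3 := hH.step k
      rw [DD_apply, sub_mul, mul_sub, sub_mul, one_mul]
      have h4 : ((k : ℂ) + 1) • (H (k + 1) - H k) =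
          ((k : ℂ) + 1) • H (k + 1) - ((k : ℂ) • H k + H k) := by
        rw [smul_sub, add_smul (k : ℂ) 1 (H k), one_smul]
      rw [h4]
      calc _ = (((k : ℂ) + 1) • H (k + 1) + (H (k + 1) * N0 - N0 * H (k + 1))) - (k : ℂ) • H k - H k
            - (H k * N0 - N0 * H k) := by abel
        _ = _ := by rw [h3]; abel
    have h5 : LL N0 k (H (k + 1) - H k) = (N1 - 1) * H k := by
      rw [LL_apply, ← DD_apply]
      exact h2
    have h6 : ‖H (k + 1) - H k‖ ≤ K1 / ((k : ℝ) + 1) * ‖H k‖ := by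
      refine (hK k _).trans ?_
      rw [h5]
      calc K / ((k : ℝ) + 1) * ‖(N1 - 1) * H k‖ ≤ K / ((k : ℝ) + 1) * (‖N1 - 1‖ * ‖H k‖) :=
            mul_le_mul_of_nonneg_left (norm_mul_le _ _) (by positivity)
        _ = _ := by rw [hK1]; ring
    calc ‖H (k + 1)‖ = ‖H k + (H (k + 1) - H k)‖ := by rw [add_sub_cancel]
      _ ≤ ‖H k‖ + ‖H (k + 1) - H k‖ := norm_add_le _ _
      _ ≤ _ := by linarith
  have hbd : ∀ k : ℕ, ‖H k‖ ≤ ‖H 0‖ * ((k : ℝ) + 1) ^ q := by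
    intro k
    induction k with
    | zero => simp
    | succ k ih =>
      have hk : (0 : ℝ) < (k : ℝ) + 1 := by positivity
      have h1 : 1 + K1 / ((k : ℝ) + 1) ≤ (1 + 1 / ((k : ℝ) + 1)) ^ q := by
        have h2 := one_add_mul_le_pow (a := 1 / ((k : ℝ) + 1))
          (by have : (0 : ℝ) ≤ 1 / ((k : ℝ) + 1) := by positivity
              linarith) q
        refine le_trans ?_ h2
        have : K1 ≤ q := Nat.le_ceil _
        rw [mul_one_div]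
        gcongr
      calc ‖H (k + 1)‖ ≤ (1 + K1 / ((k : ℝ) + 1)) * ‖H k‖ := hstep k
        _ ≤ (1 + 1 / ((k : ℝ) + 1)) ^ q * (‖H 0‖ * ((k : ℝ) + 1) ^ q) :=
          mul_le_mul h1 ih (norm_nonneg _) (by positivity)
        _ = ‖H 0‖ * ((1 + 1 / ((k : ℝ) + 1)) * ((k : ℝ) + 1)) ^ q := by rw [mul_pow]; ring
        _ = ‖H 0‖ * (((k + 1 : ℕ) : ℝ) + 1) ^ q := by
          congr 2
          push_cast
          field_simp
  exact ⟨‖H 0‖, q, fun k => (entry_le _ i j).trans (hbd k)⟩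

end growth

/-- **HG-LOC.** -/
theorem loc : S_LOC := fun _ _ N1 h =>
  ⟨exists_sol' h N1, fun _ hH i j => growth' hH h i j⟩

end Pool.Agent.N222.HG
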