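import Pool.Agent.N207.HG.Stm

/-!
# HG-SNG: the Frobenius solutions at `0` do not extend analytically to the disc around `1`

Project HG (helper207); this file by helper222. It generalises `Y119.HY.sing`.
-/

set_option autoImplicit false

open Filter Topology Matrix Polynomial

namespace Pool.Agent.N222.HG

open Pool.Agent.Y119.HY
open Pool.Agent.N207.HG (cmp eL cf bmp nu S_SNG)

variable {n : ℕ}

lemma sng_aeval (P : ℝ[X]) (t : ℝ) : Polynomial.aeval (t : ℂ) P = ((P.eval t : ℝ) : ℂ) := by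
  have h := Polynomial.aeval_algebraMap_apply ℂ t P
  rw [Complex.coe_algebraMap, Polynomial.coe_aeval_eq_eval] at h
  exact h

lemma cmp_nu {P : ℝ[X]} (hP : P.Monic) (hd : P.natDegree = n) (x : ℂ) :
    cmp n P *ᵥ nu n x = x • nu n x - (Polynomial.aeval x P) • eL n := by
  have hsum : Polynomial.aeval x P = (∑ j : Fin n, (P.coeff j : ℂ) * x ^ (j : ℕ)) + x ^ n := by
    rw [Polynomial.aeval_eq_sum_range, hd, Finset.sum_range_succ]
    have h1 : P.coeff n = 1 := by rw [← hd]; exact hP.coeff_natDegree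
    rw [h1, one_smul, Finset.sum_range]
    congr 1
  funext i
  have hLHS : (cmp n P *ᵥ nu n x) i = ∑ j : Fin n, cmp n P i j * x ^ (j : ℕ) := rfl
  rw [hLHS]
  simp only [Pool.Agent.N207.HG.cmp, Matrix.of_apply, nu, Pi.sub_apply, Pi.smul_apply, smul_eq_mul, eL]
  by_cases hi : (i : ℕ) + 1 < n
  · simp only [if_pos hi]
    rw [if_neg (by omega), Finset.sum_eq_single ⟨i + 1, hi⟩]
    · rw [if_pos rfl, one_mul, mul_zero, sub_zero, ← pow_succ']
    · intro b _ hb
      rw [if_neg, zero_mul]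
      intro h
      exact hb (Fin.ext h)
    · intro h
      exact absurd (Finset.mem_univ _) h
  · simp only [if_neg hi]
    have hi' : (i : ℕ) + 1 = n := by have := i.2; omega
    have h2 : x * x ^ (i : ℕ) = x ^ n := by rw [← pow_succ', hi']
    rw [if_pos hi', mul_one, hsum, h2]
    simp only [neg_mul, Finset.sum_neg_distrib]
    ring

lemma cf_nu {w : ℝ[X]} (hw : w.natDegree < n) (x : ℂ) :
    cf n w ⬝ᵥ nu n x = Polynomial.aeval x w := by
  rw [Polynomial.aeval_eq_sum_range' hw, Finset.sum_range]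
  rfl

lemma sub_deg (hn : 0 < n) {P Q : ℝ[X]} (hP : P.Monic) (hQ : Q.Monic) (hdP : P.natDegree = n)
    (hdQ : Q.natDegree = n) : (Q - P).natDegree < n := by
  by_cases h0 : Q - P = 0
  · rw [h0, Polynomial.natDegree_zero]; exact hn
  have h1 : (Q - P).degree < Q.degree := by
    apply Polynomial.degree_sub_lt_left
    · rw [Polynomial.degree_eq_natDegree hQ.ne_zero, Polynomial.degree_eq_natDegree hP.ne_zero,
        hdP, hdQ]
    · exact hQ.ne_zero
    · rw [hQ.leadingCoeff, hP.leadingCoeff]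
  rw [Polynomial.degree_eq_natDegree h0, Polynomial.degree_eq_natDegree hQ.ne_zero, hdQ] at h1
  exact_mod_cast h1

lemma bmp_nu (hn : 0 < n) {P Q : ℝ[X]} (hP : P.Monic) (hQ : Q.Monic) (hdP : P.natDegree = n)
    (hdQ : Q.natDegree = n) (x : ℂ) :
    bmp n P Q *ᵥ nu n x = (Polynomial.aeval x Q - Polynomial.aeval x P) • eL n := by
  unfold bmp
  rw [Matrix.vecMulVec_mulVec, cf_nu (sub_deg hn hP hQ hdP hdQ), map_sub, op_smul_eq_smul]

/-- eigenvectors of the companion matrix -/
lemma cmp_eig (hn : 0 < n) {P : ℝ[X]} (hP : P.Monic) (hd : P.natDegree = n) {x : ℂ}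
    {v : Fin n → ℂ} (hv : cmp n P *ᵥ v = x • v) :
    v = v ⟨0, hn⟩ • nu n x ∧ Polynomial.aeval x P * v ⟨0, hn⟩ = 0 := by
  have h1 : ∀ i : ℕ, ∀ hi : i < n, v ⟨i, hi⟩ = v ⟨0, hn⟩ * x ^ i := by
    intro i
    induction i with
    | zero => intro hi; rw [pow_zero, mul_one]
    | succ i ih =>
      intro hi
      have h2 := congrFun hv ⟨i, by omega⟩
      have hL : (cmp n P *ᵥ v) ⟨i, by omega⟩ = ∑ j : Fin n, cmp n P ⟨i, by omega⟩ j * v j := rfl
      rw [hL] at h2
      simp only [Pool.Agent.N207.HG.cmp, Matrix.of_apply, Pi.smul_apply, smul_eq_mul] at h2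
      simp only [if_pos hi] at h2
      rw [Finset.sum_eq_single ⟨i + 1, hi⟩] at h2
      · rw [if_pos rfl, one_mul, ih (by omega)] at h2
        rw [h2, pow_succ]
        ring
      · intro b _ hb
        rw [if_neg, zero_mul]
        intro h
        exact hb (Fin.ext h)
      · intro h
        exact absurd (Finset.mem_univ _) h
  have h2 : v = v ⟨0, hn⟩ • nu n x := by
    funext i
    rw [Pi.smul_apply, smul_eq_mul]
    exact h1 i i.2
  refine ⟨h2, ?_⟩
  rw [h2, Matrix.mulVec_smul, cmp_nu hP hd] at hv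
  have h3 := congrFun hv ⟨n - 1, by omega⟩
  simp only [Pi.smul_apply, Pi.sub_apply, smul_eq_mul, eL] at h3
  rw [if_pos (by omega)] at h3
  linear_combination -h3

section main

variable {P Q : ℝ[X]} {H : ℕ → Matrix (Fin n) (Fin n) ℂ} {l : ℝ}

/-- the coefficients of the Frobenius solution -/
noncomputable def fz (P Q : ℝ[X]) (l : ℝ) : ℕ → ℝ
  | 0 => 1
  | k + 1 => fz P Q l k * (Q.eval (l + k) / P.eval (l + k + 1))

lemma Hk_nu (hn : 0 < n) (hP : P.Monic) (hQ : Q.Monic) (hdP : P.natDegree = n)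
    (hdQ : Q.natDegree = n) (hl : P.eval l = 0) (hl1 : ∀ k : ℕ, P.eval (l + k + 1) ≠ 0)
    (hH : Sol (cmp n P) (bmp n P Q) H) (k : ℕ) :
    H k *ᵥ nu n l = (fz P Q l k : ℂ) • nu n ((l + k : ℝ) : ℂ) := by
  have hAl : cmp n P *ᵥ nu n l = (l : ℂ) • nu n l := by
    rw [cmp_nu hP hdP, sng_aeval, hl, Complex.ofReal_zero, zero_smul, sub_zero]
  induction k with
  | zero => simp [fz, hH.zero]
  | succ k ih =>
    have h1 := congrArg (fun M => M *ᵥ nu n (l : ℂ)) (hH.step k)
    simp only [Matrix.add_mulVec, Matrix.sub_mulVec, Matrix.smul_mulVec, ← Matrix.mulVec_mulVec,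
      hAl, Matrix.mulVec_smul] at h1
    rw [ih] at h1
    simp only [Matrix.mulVec_smul] at h1
    rw [cmp_nu hP hdP, bmp_nu hn hP hQ hdP hdQ] at h1
    set x : ℂ := (((l + (k + 1 : ℕ) : ℝ)) : ℂ) with hx
    have hxP : Polynomial.aeval x P = ((P.eval (l + k + 1) : ℝ) : ℂ) := by
      rw [hx, sng_aeval]
      congr 2
      push_cast
      ring
    have hxne : Polynomial.aeval x P ≠ 0 := by
      rw [hxP]
      exact_mod_cast hl1 k
    have hxe : x = (k : ℂ) + 1 + l := by rw [hx]; push_cast; ring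
    have hf : (fz P Q l (k + 1) : ℂ) * Polynomial.aeval x P =
        (fz P Q l k : ℂ) * Polynomial.aeval ((l + k : ℝ) : ℂ) Q := by
      rw [hxP, sng_aeval]
      have h2 : fz P Q l (k + 1) * P.eval (l + k + 1) = fz P Q l k * Q.eval (l + k) := by
        have h3 := hl1 k
        simp only [fz]
        field_simp
      exact_mod_cast h2
    -- the difference is an eigenvector
    have h3 : cmp n P *ᵥ (H (k + 1) *ᵥ nu n l - (fz P Q l (k + 1) : ℂ) • nu n x) =
        x • (H (k + 1) *ᵥ nu n l - (fz P Q l (k + 1) : ℂ) • nu n x) := by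
      rw [Matrix.mulVec_sub, Matrix.mulVec_smul, cmp_nu hP hdP]
      funext i
      have h4 := congrFun h1 i
      simp only [Pi.add_apply, Pi.sub_apply, Pi.smul_apply, smul_eq_mul] at h4 ⊢
      rw [hxe] at hf ⊢
      push_cast at h4 hf ⊢
      linear_combination (-1 : ℂ) * h4 + (eL n i) * hf
    obtain ⟨h5, h6⟩ := cmp_eig hn hP hdP h3
    have h7 := (mul_eq_zero.mp h6).resolve_left hxne
    rw [h7, zero_smul] at h5
    exact sub_eq_zero.mp h5

lemma fz_ne (hl1 : ∀ k : ℕ, P.eval (l + k + 1) ≠ 0) (hQl : ∀ k : ℕ, Q.eval (l + k) ≠ 0) (k : ℕ) :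
    fz P Q l k ≠ 0 := by
  induction k with
  | zero => simp [fz]
  | succ k ih => exact mul_ne_zero ih (div_ne_zero (hQl k) (hl1 k))

lemma fz_ratio (hP : P.Monic) (hQ : Q.Monic) (hdP : P.natDegree = n) (hdQ : Q.natDegree = n)
    (l : ℝ) : Tendsto (fun k : ℕ => Q.eval (l + k) / P.eval (l + k + 1)) atTop (𝓝 1) := by
  set P' : ℝ[X] := P.comp (X + C (l + 1)) with hP'
  set Q' : ℝ[X] := Q.comp (X + C l) with hQ'
  have hPm : P'.Monic := hP.comp_X_add_C _
  have hQm : Q'.Monic := hQ.comp_X_add_C _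
  have hdeg : Q'.degree = P'.degree := by
    rw [Polynomial.degree_eq_natDegree hPm.ne_zero, Polynomial.degree_eq_natDegree hQm.ne_zero,
      hP', hQ', Polynomial.natDegree_comp, Polynomial.natDegree_comp, Polynomial.natDegree_X_add_C,
      Polynomial.natDegree_X_add_C, hdP, hdQ]
  have h1 := Polynomial.div_tendsto_atTop_leadingCoeff_div_of_degree_eq Q' P' hdeg
  rw [hPm.leadingCoeff, hQm.leadingCoeff, div_one] at h1
  have h2 := h1.comp (tendsto_natCast_atTop_atTop (R := ℝ))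
  refine h2.congr fun k => ?_
  simp only [Function.comp, hP', hQ', Polynomial.eval_comp, Polynomial.eval_add, Polynomial.eval_X,
    Polynomial.eval_C]
  rw [add_comm (k : ℝ) l]
  congr 2
  ring

end main

/-- **HG-SNG.** -/
theorem sng : S_SNG := by
  intro n P Q H l hn hP hQ hdP hdQ hl hl1 hQl hH hg g hga hext
  set f : ℕ → ℝ := fz P Q l with hf
  have hk := Hk_nu hn hP hQ hdP hdQ hl hl1 hH
  have hsum : ∀ k, ∑ j : Fin n, (l : ℂ) ^ (j : ℕ) * H k ⟨0, hn⟩ j = (f k : ℂ) := by
    intro k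
    have h1 := congrFun (hk k) ⟨0, hn⟩
    have h2 : (H k *ᵥ nu n l) ⟨0, hn⟩ = ∑ j : Fin n, H k ⟨0, hn⟩ j * (l : ℂ) ^ (j : ℕ) := rfl
    rw [h2] at h1
    simp only [mul_comm ((l : ℂ) ^ _)]
    rw [h1, Pi.smul_apply, smul_eq_mul]
    unfold nu
    rw [pow_zero, mul_one]
  have hpgj : ∀ j ∈ (Finset.univ : Finset (Fin n)),
      PG fun k => (l : ℂ) ^ (j : ℕ) * H k ⟨0, hn⟩ j := fun j _ => (hg ⟨0, hn⟩ j).smul _
  have hpg : PG fun k => (f k : ℂ) := by
    have h1 := PG.sum _ hpgj
    refine (congrArg PG ?_).mp h1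
    funext k
    exact hsum k
  have e1 : ∀ z : ℂ, ‖z‖ < 1 → (Hf H z *ᵥ nu n l) ⟨0, hn⟩ = ps (fun k => (f k : ℂ)) z := by
    intro z hz
    have h1 := ps_sum _ hpgj hz
    have h2 : (fun k => (f k : ℂ)) = fun k => ∑ j : Fin n, (l : ℂ) ^ (j : ℕ) * H k ⟨0, hn⟩ j := by
      funext k
      exact (hsum k).symm
    rw [h2, h1]
    have h3 : (Hf H z *ᵥ nu n l) ⟨0, hn⟩ = ∑ j : Fin n, Hf H z ⟨0, hn⟩ j * (l : ℂ) ^ (j : ℕ) := rfl
    rw [h3]
    refine Finset.sum_congr rfl fun j _ => ?_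
    rw [ps_smul, mul_comm]
    rfl
  have hLens : ∀ z ∈ Lens, ‖z‖ < 1 := fun z hz => (mem_Lens.mp hz).1
  obtain ⟨K₀, hK₀⟩ := Filter.eventually_atTop.1 ((fz_ratio hP hQ hdP hdQ l).eventually
    (lt_mem_nhds (show (9 / 10 : ℝ) < 1 by norm_num)))
  have hstep : ∀ k, f (k + 1) = f k * (Q.eval (l + k) / P.eval (l + k + 1)) := fun k => rfl
  rcases lt_or_gt_of_ne (fz_ne hl1 hQl K₀) with h0 | h0
  · have hpos : ∀ k ≥ K₀, f k < 0 := by
      intro k hk
      induction k, hk using Nat.le_induction with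
      | base => exact h0
      | succ k hk ih =>
        rw [hstep]
        exact mul_neg_of_neg_of_pos ih (by linarith [hK₀ k hk])
    refine no_ext (a := fun k => -(f k)) (K₀ := K₀) ?_ (fun k hk => by linarith [hpos k hk])
      (fun k hk => ?_) (g := fun z => -g z) hga.neg fun z hz => ?_
    · refine (congrArg PG ?_).mp (hpg.smul (-1))
      funext k
      push_cast
      ring
    · rw [hstep]
      nlinarith [hpos k hk, hK₀ k hk]
    · rw [← hext z hz, e1 z (hLens z hz)]
      have := ps_smul (c := fun k => (f k : ℂ)) (-1) z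
      rw [neg_one_mul] at this
      rw [← this]
      congr 1
      funext k
      push_cast
      ring
  · have hpos : ∀ k ≥ K₀, 0 < f k := by
      intro k hk
      induction k, hk using Nat.le_induction with
      | base => exact h0
      | succ k hk ih =>
        rw [hstep]
        exact mul_pos ih (by linarith [hK₀ k hk])
    refine no_ext hpg hpos (fun k hk => ?_) hga fun z hz => ?_
    · rw [hstep]
      nlinarith [hpos k hk, hK₀ k hk]
    · rw [← hext z hz, e1 z (hLens z hz)]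

end Pool.Agent.N222.HG
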