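import Pool.Agent.N207.HG.Stm

/-!
# HG-TRA: monodromy of one factor of a product

Project HG (helper207); this file by helper222.
-/

set_option autoImplicit false
set_option linter.unusedSectionVars false

open Filter Topology Matrix

namespace Pool.Agent.N222.HG

open Pool.Agent.Y119.PLM (MT IsMon Cnt)
open Pool.Agent.Y985.OR (Mat)
open Pool.Agent.N207.HG (Ch Mo S_TRA)

section

variable {κ : Type} [Fintype κ] [DecidableEq κ] {n : κ → ℕ} {D : Set ℂ} {Y : (j : κ) → ℂ → Mat (n j)}

/-- the product set with the factor `V` at `j` -/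
def PS (D : Set ℂ) (j : κ) (V : Set ℂ) : Set (κ → ℂ) :=
  Set.pi Set.univ (Function.update (fun _ => D) j V)

/-- the family with the factor `F` at `j` -/
def PF (Y : (j : κ) → ℂ → Mat (n j)) (j : κ) (F : ℂ → Mat (n j)) (x : κ → ℂ) : MT n :=
  Function.update (fun i => Y i (x i)) j (F (x j))

lemma mem_PS {j : κ} {V : Set ℂ} {x : κ → ℂ} :
    x ∈ PS D j V ↔ x j ∈ V ∧ ∀ i, i ≠ j → x i ∈ D := by
  unfold PS
  rw [Set.mem_univ_pi]
  constructor
  · intro h
    refine ⟨by simpa using h j, fun i hi => by simpa [Function.update_of_ne hi] using h i⟩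
  · rintro ⟨h1, h2⟩ i
    by_cases hi : i = j
    · subst hi
      simpa using h1
    · rw [Function.update_of_ne hi]
      exact h2 i hi

lemma PS_pre {j : κ} {V : Set ℂ} (hD : IsPreconnected D) (hV : IsPreconnected V) :
    IsPreconnected (PS D j V) := by
  refine isPreconnected_univ_pi fun i => ?_
  by_cases hi : i = j
  · subst hi
    simpa using hV
  · rw [Function.update_of_ne hi]
    exact hD

lemma PS_open {j : κ} {V : Set ℂ} (hD : IsOpen D) (hV : IsOpen V) : IsOpen (PS D j V) := by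
  refine isOpen_set_pi Set.finite_univ fun i _ => ?_
  by_cases hi : i = j
  · subst hi
    simpa using hV
  · rw [Function.update_of_ne hi]
    exact hD

lemma PS_ne {j : κ} {V : Set ℂ} (hD : D.Nonempty) (hV : V.Nonempty) : (PS D j V).Nonempty := by
  refine Set.univ_pi_nonempty_iff.mpr fun i => ?_
  by_cases hi : i = j
  · subst hi
    simpa using hV
  · rw [Function.update_of_ne hi]
    exact hD

lemma PS_mono {j : κ} {V W : Set ℂ} (h : W ⊆ V) : PS D j W ⊆ PS D j V := by
  intro x hx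
  rw [mem_PS] at hx ⊢
  exact ⟨h hx.1, hx.2⟩

lemma PF_an {j : κ} {V : Set ℂ} {F : ℂ → Mat (n j)}
    (hY : ∀ j a b, AnalyticOnNhd ℂ (fun z => Y j z a b) D)
    (hF : ∀ a b, AnalyticOnNhd ℂ (fun z => F z a b) V) (i : κ) (a b : Fin (n i)) :
    AnalyticOnNhd ℂ (fun x => PF Y j F x i a b) (PS D j V) := by
  intro x hx
  rw [mem_PS] at hx
  unfold PF
  have hp : AnalyticAt ℂ (fun y : κ → ℂ => y i) x :=
    (ContinuousLinearMap.proj (R := ℂ) (φ := fun _ : κ => ℂ) i).analyticAt x
  by_cases hi : i = j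
  · subst hi
    simp only [Function.update_self]
    exact AnalyticAt.fun_comp (g := fun z => F z a b) (f := fun y : κ → ℂ => y i)
      (hF a b (x i) hx.1) hp
  · simp only [Function.update_of_ne hi]
    exact AnalyticAt.fun_comp (g := fun z => Y i z a b) (f := fun y : κ → ℂ => y i)
      (hY i a b (x i) (hx.2 i hi)) hp

lemma PS_self (j : κ) : PS D j D = {x : κ → ℂ | ∀ i, x i ∈ D} := by
  ext x
  rw [mem_PS]
  constructor
  · rintro ⟨h1, h2⟩ i
    by_cases hi : i = j
    · rw [hi]; exact h1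
    · exact h2 i hi
  · intro h
    exact ⟨h j, fun i _ => h i⟩

lemma PF_self (j : κ) : PF Y j (Y j) = fun x i => Y i (x i) := by
  funext x
  unfold PF
  exact Function.update_eq_self j (fun i => Y i (x i))

lemma cnt_of_ch (hDo : IsOpen D) (hDc : IsPreconnected D) (hDn : D.Nonempty)
    (hY : ∀ j a b, AnalyticOnNhd ℂ (fun z => Y j z a b) D) {j : κ} {V : Set ℂ} {F : ℂ → Mat (n j)}
    (h : Ch D (Y j) V F) :
    Cnt {x : κ → ℂ | ∀ i, x i ∈ D} (fun x i => Y i (x i)) (PS D j V) (PF Y j F) := by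
  induction h with
  | base =>
    rw [PS_self, PF_self]
    exact Cnt.base
  | step h hV'o hV'c hF' hW hne hWV hWV' he ih =>
    refine Cnt.step ih (PS_pre hDc hV'c) (PF_an hY hF') (PS_open hDo hW) (PS_ne hDn hne)
      (PS_mono hWV) (PS_mono hWV') fun x hx => ?_
    rw [mem_PS] at hx
    unfold PF
    rw [he _ hx.1]

end

/-- **HG-TRA.** -/
theorem tra : S_TRA := by
  intro κ _ _ n D Y hDo hDc hDn hY j g hg
  obtain ⟨V, W, F, hc, hW, hne, hWV, hWD, he⟩ := hg
  refine ⟨PS D j V, PS D j W, PF Y j F, cnt_of_ch hDo hDc hDn hY hc, PS_open hDo hW,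
    PS_ne hDn hne, PS_mono hWV, ?_, fun x hx => ?_⟩
  · intro x hx
    have h1 := PS_mono hWD hx
    rwa [PS_self] at h1
  · rw [mem_PS] at hx
    funext i
    unfold PF
    rw [Pi.mul_apply]
    by_cases hi : i = j
    · subst hi
      rw [Function.update_self, Pi.mulSingle_eq_same, he _ hx.1]
    · rw [Function.update_of_ne hi, Pi.mulSingle_eq_of_ne hi, mul_one]

end Pool.Agent.N222.HG
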