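import Pool.Agent.N207.HG.Stm

/-!
# HG-T01: the local monodromies at `0` and `1`

Project HG (helper207); this file by helper222.
-/

set_option autoImplicit false

open Filter Topology Matrix

namespace Pool.Agent.N222.HG

open Pool.Agent.Y119.HY
open Pool.Agent.Y985.OR (Mat)
open Pool.Agent.N207.HG

section

variable {n : ℕ}

lemma an_mul {V : Set ℂ} {F G : ℂ → Mat n} (hF : ∀ a b, AnalyticOnNhd ℂ (fun z => F z a b) V)
    (hG : ∀ a b, AnalyticOnNhd ℂ (fun z => G z a b) V) (a b : Fin n) :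
    AnalyticOnNhd ℂ (fun z => (F z * G z) a b) V := by
  simp only [Matrix.mul_apply]
  exact Finset.analyticOnNhd_fun_sum _ fun l _ => (hF a l).mul (hG l b)

/-- the logarithm after a half turn -/
lemma log_neg_turn {ε : ℝ} (hε : ε = 1 ∨ ε = -1) {z : ℂ} (hz : 0 < ε * z.im) :
    Complex.log (-z) + ε * (Real.pi * Complex.I) = Complex.log z := by
  unfold Complex.log
  rw [norm_neg]
  rcases hε with rfl | rfl
  · rw [one_mul] at hz
    rw [Complex.arg_neg_eq_arg_sub_pi_of_im_pos hz]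
    push_cast
    ring
  · have hz' : z.im < 0 := by linarith
    rw [Complex.arg_neg_eq_arg_add_pi_of_im_neg hz']
    push_cast
    ring

lemma half_slit {ε : ℝ} {z : ℂ} (hz : 0 < ε * z.im) :
    z ∈ Complex.slitPlane ∧ -z ∈ Complex.slitPlane := by
  have h0 : z.im ≠ 0 := by
    intro h0
    rw [h0, mul_zero] at hz
    exact lt_irrefl _ hz
  exact ⟨Or.inr h0, Or.inr (by rw [Complex.neg_im]; exact neg_ne_zero.mpr h0)⟩

lemma D0_open : IsOpen D0 := by
  have : D0 = Metric.ball 0 1 ∩ Complex.slitPlane := by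
    ext z
    rw [Set.mem_inter_iff, Metric.mem_ball, dist_zero_right]
    rfl
  rw [this]
  exact Metric.isOpen_ball.inter Complex.isOpen_slitPlane

lemma D0_pre : IsPreconnected D0 := by
  have hs : StarConvex ℝ (1 / 2 : ℂ) D0 := by
    intro z hz a b ha hb hab
    have hb1 : a = 1 - b := by linarith
    subst hb1
    refine ⟨?_, ?_⟩
    · have h1 : ‖(1 - b) • (1 / 2 : ℂ) + b • z‖ ≤ (1 - b) * (1 / 2) + b * ‖z‖ := by
        refine (norm_add_le _ _).trans (le_of_eq ?_)
        rw [norm_smul, norm_smul, Real.norm_of_nonneg ha, Real.norm_of_nonneg hb]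
        congr 2
        norm_num
      have h2 := hz.1
      rcases hb.eq_or_lt with h0 | h0
      · rw [← h0] at h1 ⊢
        linarith
      · have h3 : b * ‖z‖ < b * 1 := mul_lt_mul_of_pos_left h2 h0
        linarith
    · have him : ((1 - b) • (1 / 2 : ℂ) + b • z).im = b * z.im := by
        simp
      have hre : ((1 - b) • (1 / 2 : ℂ) + b • z).re = (1 - b) * (1 / 2) + b * z.re := by
        simp
      rcases hb.eq_or_lt with h0 | h0
      · left
        rw [hre, ← h0]
        norm_num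
      · rcases hz.2 with h | h
        · left
          rw [hre]
          have h3 : 0 < b * z.re := mul_pos h0 h
          have h4 : 0 ≤ (1 - b) * (1 / 2 : ℝ) := by positivity
          linarith
        · right
          rw [him]
          exact mul_ne_zero h0.ne' h
  have hm : (1 / 2 : ℂ) ∈ D0 := by
    refine ⟨by norm_num, Or.inl (by norm_num)⟩
  exact (hs.isPathConnected hm).isConnected.isPreconnected

/-- the disc with the opposite slit -/
def D1 : Set ℂ := {z | ‖z‖ < 1 ∧ -z ∈ Complex.slitPlane}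

lemma D1_eq : D1 = (fun z => -z) '' D0 := by
  ext z
  constructor
  · intro hz
    exact ⟨-z, ⟨by rw [norm_neg]; exact hz.1, hz.2⟩, neg_neg z⟩
  · rintro ⟨w, hw, rfl⟩
    exact ⟨by rw [norm_neg]; exact hw.1, by rw [neg_neg]; exact hw.2⟩

lemma D1_open : IsOpen D1 := by
  have : D1 = (fun z : ℂ => -z) ⁻¹' D0 := by
    ext z
    constructor
    · intro hz
      exact ⟨by rw [norm_neg]; exact hz.1, hz.2⟩
    · intro hz
      exact ⟨by rw [← norm_neg]; exact hz.1, hz.2⟩
  rw [this]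
  exact D0_open.preimage continuous_neg

lemma D1_pre : IsPreconnected D1 := by
  rw [D1_eq]
  exact D0_pre.image _ continuous_neg.continuousOn

/-- the half discs -/
def Dh (ε : ℝ) : Set ℂ := {z | ‖z‖ < 1 ∧ 0 < ε * z.im}

lemma Dh_open (ε : ℝ) : IsOpen (Dh ε) := by
  have : Dh ε = Metric.ball 0 1 ∩ {z : ℂ | 0 < ε * z.im} := by
    ext z
    rw [Set.mem_inter_iff, Metric.mem_ball, dist_zero_right]
    rfl
  rw [this]
  exact Metric.isOpen_ball.inter (isOpen_lt continuous_const (continuous_const.mul Complex.continuous_im))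

lemma Dh_ne {ε : ℝ} (hε : ε = 1 ∨ ε = -1) : (Dh ε).Nonempty := by
  refine ⟨((ε / 2 : ℝ) : ℂ) * Complex.I, ?_, ?_⟩
  · rw [norm_mul, Complex.norm_I, mul_one, Complex.norm_real, Real.norm_eq_abs]
    rcases hε with rfl | rfl <;> norm_num
  · rw [Complex.mul_im]
    simp only [Complex.ofReal_re, Complex.I_im, mul_one, Complex.ofReal_im, Complex.I_re, mul_zero,
      add_zero]
    rcases hε with rfl | rfl <;> norm_num

/-- involutions of the plane used as coordinates -/
structure Inv (φ : ℂ → ℂ) : Prop where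
  inv : ∀ z, φ (φ z) = z
  ana : AnalyticOnNhd ℂ φ Set.univ

lemma Inv.cont {φ : ℂ → ℂ} (h : Inv φ) : Continuous φ :=
  continuous_iff_continuousAt.mpr fun z => (h.ana z (Set.mem_univ _)).continuousAt

lemma Inv.pre {φ : ℂ → ℂ} (h : Inv φ) {S : Set ℂ} (hS : IsPreconnected S) :
    IsPreconnected (φ ⁻¹' S) := by
  have e : φ ⁻¹' S = φ '' S := by
    ext z
    constructor
    · intro hz
      exact ⟨φ z, hz, h.inv z⟩
    · rintro ⟨w, hw, rfl⟩
      rw [Set.mem_preimage, h.inv]
      exact hw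
  rw [e]
  exact hS.image _ h.cont.continuousOn

lemma Inv.ne {φ : ℂ → ℂ} (h : Inv φ) {S : Set ℂ} (hS : S.Nonempty) : (φ ⁻¹' S).Nonempty := by
  obtain ⟨z, hz⟩ := hS
  exact ⟨φ z, by rw [Set.mem_preimage, h.inv]; exact hz⟩

variable {N0 : Mat n} {H : ℕ → Mat n}

/-- the entries of the solutions are analytic -/
lemma sol_an {φ : ℂ → ℂ} (hφ : Inv φ) {V : Set ℂ} (hV : ∀ z ∈ V, ‖φ z‖ < 1)
    (hHan : ∀ i j, AnalyticOnNhd ℂ (fun z => Hf H z i j) (Metric.ball 0 1))
    (hEan : ∀ i j, AnalyticOnNhd ℂ (fun s => EX N0 s i j) Set.univ) {L : ℂ → ℂ}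
    (hL : AnalyticOnNhd ℂ L V) (C : Mat n) (a b : Fin n) :
    AnalyticOnNhd ℂ (fun z => (Hf H (φ z) * EX N0 (L z) * C) a b) V := by
  refine an_mul (fun a b => an_mul (fun a b => ?_) (fun a b => ?_) a b) (fun a b => ?_) a b
  · intro z hz
    exact AnalyticAt.fun_comp (g := fun z => Hf H z a b) (f := φ)
      (hHan a b (φ z) (by rw [Metric.mem_ball, dist_zero_right]; exact hV z hz))
      (hφ.ana z (Set.mem_univ _))
  · intro z hz
    exact AnalyticAt.fun_comp (g := fun s => EX N0 s a b) (f := L)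
      (hEan a b (L z) (Set.mem_univ _)) (hL z hz)
  · exact analyticOnNhd_const

/-- **one turn** -/
lemma turn {φ : ℂ → ℂ} (hφ : Inv φ)
    (hHan : ∀ i j, AnalyticOnNhd ℂ (fun z => Hf H z i j) (Metric.ball 0 1))
    (hEan : ∀ i j, AnalyticOnNhd ℂ (fun s => EX N0 s i j) Set.univ) {D : Set ℂ} {Y : ℂ → Mat n}
    {C : Mat n} {ε : ℝ} (hε : ε = 1 ∨ ε = -1)
    (h : Ch D Y (φ ⁻¹' D0) fun z => Hf H (φ z) * EX N0 (Complex.log (φ z)) * C) :
    Ch D Y (φ ⁻¹' D0) fun z => Hf H (φ z) *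
      EX N0 (Complex.log (φ z) + 2 * (ε * (Real.pi * Complex.I))) * C := by
  have hφn : AnalyticOnNhd ℂ (fun z => -φ z) Set.univ := hφ.ana.neg
  have hε' : -ε = 1 ∨ -ε = -1 := by
    rcases hε with rfl | rfl
    · right; rfl
    · left; norm_num
  have s1 : Ch D Y (φ ⁻¹' D1) fun z => Hf H (φ z) *
      EX N0 (Complex.log (-φ z) + ε * (Real.pi * Complex.I)) * C := by
    refine Ch.step (W := φ ⁻¹' Dh ε) h (D1_open.preimage hφ.cont) (hφ.pre D1_pre)
      (sol_an hφ (fun z hz => hz.1) hHan hEan ?_ C) ((Dh_open ε).preimage hφ.cont)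
      (hφ.ne (Dh_ne hε)) ?_ ?_ ?_
    · intro z hz
      exact (AnalyticAt.clog (hφn z (Set.mem_univ _)) hz.2).add analyticAt_const
    · intro z hz
      exact ⟨hz.1, (half_slit hz.2).1⟩
    · intro z hz
      exact ⟨hz.1, (half_slit hz.2).2⟩
    · intro z hz
      rw [log_neg_turn hε hz.2]
  refine Ch.step (W := φ ⁻¹' Dh (-ε)) s1 (D0_open.preimage hφ.cont) (hφ.pre D0_pre)
      (sol_an hφ (fun z hz => hz.1) hHan hEan ?_ C) ((Dh_open (-ε)).preimage hφ.cont)
      (hφ.ne (Dh_ne hε')) ?_ ?_ ?_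
  · intro z hz
    exact (AnalyticAt.clog (hφ.ana z (Set.mem_univ _)) hz.2).add analyticAt_const
  · intro z hz
    exact ⟨hz.1, (half_slit hz.2).2⟩
  · intro z hz
    exact ⟨hz.1, (half_slit hz.2).1⟩
  · intro z hz
    rw [← log_neg_turn hε' hz.2]
    congr 3
    push_cast
    ring

end

/-- **HG-T01.** -/
theorem t01 : S_ODE → S_EXP → S_T01 := by
  intro hode hexp n A B H K M Mi hA hB hH hK hM hrel
  have hHan := (hode n A B H hA hH).1
  have hKan := (hode n (-B) (-A) K hB hK).1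
  obtain ⟨-, hAadd, -, hAan, -⟩ := hexp n A
  obtain ⟨-, hBadd, -, hBan, -⟩ := hexp n (-B)
  have hid : Inv (fun z : ℂ => z) := ⟨fun z => rfl, analyticOnNhd_id⟩
  have h1m : Inv (fun z : ℂ => 1 - z) :=
    ⟨fun z => by ring, analyticOnNhd_const.sub analyticOnNhd_id⟩
  have hhalf : ((1 / 2 : ℝ) : ℂ) ∈ Lens := real_mem_Lens (by norm_num) (by norm_num)
  have hLD : Lens ⊆ D0 := fun z hz => ⟨(mem_Lens.mp hz).1, slit_Lens hz⟩
  have hbase : Ch D0 (YE A H) D0 fun z => Hf H z * EX A (Complex.log z) * 1 := by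
    have : (fun z => Hf H z * EX A (Complex.log z) * 1) = YE A H := by
      funext z
      rw [mul_one]
      rfl
    rw [this]
    exact Ch.base
  have h0 : ∀ ε : ℝ, (ε = 1 ∨ ε = -1) →
      Mo D0 (YE A H) (EX A (2 * (ε * (Real.pi * Complex.I)))) := by
    intro ε hε
    refine ⟨D0, Lens, _, turn hid hHan hAan hε hbase, isOpen_Lens, ⟨_, hhalf⟩, hLD, hLD,
      fun z _ => ?_⟩
    rw [mul_one, hAadd, ← mul_assoc]
    rfl
  refine ⟨?_, ?_, ?_⟩
  · have := h0 1 (Or.inl rfl)
    convert this using 2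
    push_cast
    ring
  · have := h0 (-1) (Or.inr rfl)
    convert this using 2
    push_cast
    ring
  · have hstart : Ch D0 (YE A H) ((fun z : ℂ => 1 - z) ⁻¹' D0)
        fun z => Hf K (1 - z) * EX (-B) (Complex.log (1 - z)) * M := by
      refine Ch.step (W := Lens) Ch.base (D0_open.preimage h1m.cont) (h1m.pre D0_pre)
        (sol_an h1m (fun z hz => hz.1) hKan hBan ?_ M) isOpen_Lens ⟨_, hhalf⟩ hLD ?_ ?_
      · intro z hz
        exact AnalyticAt.clog (h1m.ana z (Set.mem_univ _)) hz.2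
      · intro z hz
        exact hLD (symm_Lens hz)
      · intro z hz
        exact (hrel z hz).symm
    refine ⟨_, Lens, _, turn h1m hKan hBan (Or.inl rfl) hstart, isOpen_Lens, ⟨_, hhalf⟩,
      fun z hz => hLD (symm_Lens hz), hLD, fun z hz => ?_⟩
    have h1 : YE (-B) K (1 - z) = YE A H z * Mi := by
      rw [hrel z hz, mul_assoc, hM, mul_one]
    have h2 : YE (-B) K (1 - z) = Hf K (1 - z) * EX (-B) (Complex.log (1 - z)) := rfl
    rw [hBadd, ← mul_assoc, ← h2, h1]
    have h3 : (2 * (((1 : ℝ) : ℂ) * ((Real.pi : ℂ) * Complex.I))) = 2 * Real.pi * Complex.I := by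
      push_cast
      ring
    rw [h3]
    simp only [mul_assoc]

end Pool.Agent.N222.HG
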